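import Mathlib

/-!
# A Mellin transform with the cut moved from `1` to `N₀`
-/

set_option autoImplicit false

open MeasureTheory Set Filter Complex

namespace Pool.Agent.H69.TC

theorem cpow_inv_real {x : ℝ} (hx : 0 < x) (s : ℂ) :
    ((x⁻¹ : ℝ) : ℂ) ^ s = ((x : ℂ) ^ s)⁻¹ := by
  rw [ofReal_inv, Complex.inv_cpow _ _ (by rw [Complex.arg_ofReal_of_nonneg hx.le]; exact
    Real.pi_pos.ne)]

theorem cpow_mul_real {x y : ℝ} (hx : 0 < x) (hy : 0 < y) (s : ℂ) :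
    ((x * y : ℝ) : ℂ) ^ s = (x : ℂ) ^ s * (y : ℂ) ^ s := by
  rw [ofReal_mul, Complex.mul_cpow_ofReal_nonneg hx.le hy.le]

theorem cpow_ne_real {x : ℝ} (hx : 0 < x) (s : ℂ) : (x : ℂ) ^ s ≠ 0 := by
  rw [Ne, Complex.cpow_eq_zero_iff]
  intro h
  exact hx.ne' (Complex.ofReal_eq_zero.1 h.1)

/-- the scaled integral -/
theorem scale (F : ℝ → ℂ) (s : ℂ) (a : ℝ) (ha : 0 < a)
    (iF : IntegrableOn (fun T : ℝ => F T * (T : ℂ) ^ (s - 1)) (Ioi a)) :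
    IntegrableOn (fun T : ℝ => F (T * a) * (T : ℂ) ^ (s - 1)) (Ioi 1) ∧
    (a : ℂ) ^ s * (∫ T in Ioi (1 : ℝ), F (T * a) * (T : ℂ) ^ (s - 1)) =
      ∫ T in Ioi a, F T * (T : ℂ) ^ (s - 1) := by
  have hac : (a : ℂ) ≠ 0 := ofReal_ne_zero.2 ha.ne'
  have e1 : ∀ T ∈ Ioi (1 : ℝ), F (T * a) * (T : ℂ) ^ (s - 1) =
      ((a : ℂ) ^ (s - 1))⁻¹ * (fun T : ℝ => F T * (T : ℂ) ^ (s - 1)) (T * a) := by
    intro T hT
    have hT0 : 0 < T := lt_trans one_pos hT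
    show _ = ((a : ℂ) ^ (s - 1))⁻¹ * (F (T * a) * ((T * a : ℝ) : ℂ) ^ (s - 1))
    rw [cpow_mul_real hT0 ha]
    have := cpow_ne_real ha (s - 1)
    field_simp
  have i1 : IntegrableOn (fun T : ℝ => (fun T : ℝ => F T * (T : ℂ) ^ (s - 1)) (T * a)) (Ioi 1) :=
    (integrableOn_Ioi_comp_mul_right_iff (fun T : ℝ => F T * (T : ℂ) ^ (s - 1)) 1 ha).2 (by
      rw [one_mul]
      exact iF)
  constructor
  · refine IntegrableOn.congr_fun (i1.const_mul ((a : ℂ) ^ (s - 1))⁻¹) ?_ measurableSet_Ioi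
    intro T hT
    exact (e1 T hT).symm
  · rw [setIntegral_congr_fun measurableSet_Ioi e1, integral_const_mul]
    have h2 := integral_comp_mul_right_Ioi (fun T : ℝ => F T * (T : ℂ) ^ (s - 1)) 1 ha
    rw [one_mul] at h2
    rw [h2]
    have e3 : (a : ℂ) ^ s = (a : ℂ) ^ (s - 1) * a := by
      rw [Complex.cpow_sub _ _ hac, Complex.cpow_one, div_mul_cancel₀ _ hac]
    rw [e3]
    have := cpow_ne_real ha (s - 1)
    rw [Complex.real_smul, ofReal_inv]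
    field_simp

/-- inversion on a compact interval -/
theorem invert (F G : ℝ → ℂ) (ρ s : ℂ) (a : ℝ) (ha : 1 ≤ a) (hF : ContinuousOn F (Ioi 0))
    (hFG : ∀ T : ℝ, 0 < T → F (1 / T) = T * ρ * G T) :
    ∫ T in (1 : ℝ)..a, F T * (T : ℂ) ^ (s - 1) =
      ρ * ∫ T in a⁻¹..(1 : ℝ), G T * (T : ℂ) ^ (-s) := by
  have ha0 : 0 < a := lt_of_lt_of_le one_pos ha
  have hle : a⁻¹ ≤ 1 := inv_le_one_of_one_le₀ ha
  have hpos : ∀ x ∈ uIcc a⁻¹ (1 : ℝ), 0 < x := by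
    intro x hx
    rw [uIcc_of_le hle] at hx
    exact lt_of_lt_of_le (inv_pos.2 ha0) hx.1
  have hcont : ContinuousOn (fun T : ℝ => F T * (T : ℂ) ^ (s - 1)) (Ioi 0) := by
    refine hF.mul ?_
    intro x hx
    refine ContinuousAt.continuousWithinAt ?_
    exact (continuousAt_ofReal_cpow_const x (s - 1) (Or.inr (ne_of_gt hx)))
  have key := intervalIntegral.integral_deriv_smul_comp' (a := a⁻¹) (b := 1)
    (f := fun x : ℝ => x⁻¹) (f' := fun x : ℝ => -(x ^ 2)⁻¹)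
    (g := fun T : ℝ => F T * (T : ℂ) ^ (s - 1)) (by
      intro x hx
      exact hasDerivAt_inv (hpos x hx).ne') (by
      intro x hx
      refine ContinuousAt.continuousWithinAt ?_
      exact ((continuousAt_id.pow 2).inv₀ (pow_ne_zero 2 (hpos x hx).ne')).neg) (by
      refine hcont.mono ?_
      rintro _ ⟨x, hx, rfl⟩
      exact inv_pos.2 (hpos x hx))
  simp only [inv_inv, inv_one] at key
  rw [intervalIntegral.integral_symm 1 a] at key
  have e1 : ∫ x in a⁻¹..(1 : ℝ), -(x ^ 2)⁻¹ •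
      ((fun T : ℝ => F T * (T : ℂ) ^ (s - 1)) ∘ fun x : ℝ => x⁻¹) x =
      ∫ x in a⁻¹..(1 : ℝ), -(ρ * (G x * (x : ℂ) ^ (-s))) := by
    refine intervalIntegral.integral_congr ?_
    intro x hx
    have hx0 := hpos x hx
    have hxc : (x : ℂ) ≠ 0 := ofReal_ne_zero.2 hx0.ne'
    show -(x ^ 2)⁻¹ • (F x⁻¹ * ((x⁻¹ : ℝ) : ℂ) ^ (s - 1)) = -(ρ * (G x * (x : ℂ) ^ (-s)))
    have hinv : F x⁻¹ = x * ρ * G x := by
      rw [← hFG x hx0, one_div]
    rw [hinv, cpow_inv_real hx0, Complex.cpow_sub _ _ hxc,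
      Complex.cpow_one, Complex.cpow_neg, Complex.real_smul]
    have := cpow_ne_real hx0 s
    push_cast
    field_simp
  rw [e1, intervalIntegral.integral_neg, intervalIntegral.integral_const_mul] at key
  exact (neg_injective key).symm

/-- the cut is moved -/
theorem cut (F G : ℝ → ℂ) (ρ s : ℂ) (a : ℝ) (ha : 1 ≤ a) (hF : ContinuousOn F (Ioi 0))
    (hG : ContinuousOn G (Ioi 0)) (hFG : ∀ T : ℝ, 0 < T → F (1 / T) = T * ρ * G T)
    (iF : IntegrableOn (fun T : ℝ => F T * (T : ℂ) ^ (s - 1)) (Ioi 1))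
    (iG : IntegrableOn (fun T : ℝ => G T * (T : ℂ) ^ (-s)) (Ioi 1)) :
    IntegrableOn (fun T : ℝ => F (T * a) * (T : ℂ) ^ (s - 1)) (Ioi 1) ∧
    IntegrableOn (fun T : ℝ => G (T * a⁻¹) * (T : ℂ) ^ (-s)) (Ioi 1) ∧
    (∫ T in Ioi (1 : ℝ), F T * (T : ℂ) ^ (s - 1)) +
      ρ * (∫ T in Ioi (1 : ℝ), G T * (T : ℂ) ^ (-s)) =
      (a : ℂ) ^ s * (∫ T in Ioi (1 : ℝ), F (T * a) * (T : ℂ) ^ (s - 1)) +
      ρ * (a : ℂ) ^ (s - 1) * ∫ T in Ioi (1 : ℝ), G (T * a⁻¹) * (T : ℂ) ^ (-s) := by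
  have ha0 : 0 < a := lt_of_lt_of_le one_pos ha
  have hai : 0 < a⁻¹ := inv_pos.2 ha0
  have hle : a⁻¹ ≤ 1 := inv_le_one_of_one_le₀ ha
  have hac : (a : ℂ) ≠ 0 := ofReal_ne_zero.2 ha0.ne'
  obtain ⟨j1, j2⟩ := scale F s a ha0 (iF.mono_set (Ioi_subset_Ioi ha))
  have hs : (1 - s) - 1 = -s := by ring
  have hcG : ContinuousOn (fun T : ℝ => G T * (T : ℂ) ^ (-s)) (Ioi 0) := by
    refine hG.mul ?_
    intro x hx
    refine ContinuousAt.continuousWithinAt ?_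
    exact (continuousAt_ofReal_cpow_const x (-s) (Or.inr (ne_of_gt hx)))
  have hcF : ContinuousOn (fun T : ℝ => F T * (T : ℂ) ^ (s - 1)) (Ioi 0) := by
    refine hF.mul ?_
    intro x hx
    refine ContinuousAt.continuousWithinAt ?_
    exact (continuousAt_ofReal_cpow_const x (s - 1) (Or.inr (ne_of_gt hx)))
  have iG2 : IntervalIntegrable (fun T : ℝ => G T * (T : ℂ) ^ (-s)) volume a⁻¹ 1 := by
    refine ContinuousOn.intervalIntegrable (hcG.mono ?_)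
    intro x hx
    rw [uIcc_of_le hle] at hx
    exact lt_of_lt_of_le hai hx.1
  have iG3 : IntegrableOn (fun T : ℝ => G T * (T : ℂ) ^ (-s)) (Ioi a⁻¹) := by
    rw [← Ioc_union_Ioi_eq_Ioi hle]
    exact ((intervalIntegrable_iff_integrableOn_Ioc_of_le hle).1 iG2).union iG
  have h4 := scale G (1 - s) a⁻¹ hai (by rw [hs]; exact iG3)
  rw [hs] at h4
  obtain ⟨j3, j4⟩ := h4
  have iF2 : IntervalIntegrable (fun T : ℝ => F T * (T : ℂ) ^ (s - 1)) volume 1 a := by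
    refine ContinuousOn.intervalIntegrable (hcF.mono ?_)
    intro x hx
    rw [uIcc_of_le ha] at hx
    exact lt_of_lt_of_le one_pos hx.1
  refine ⟨j1, j3, ?_⟩
  have e5 : (a : ℂ) ^ (s - 1) = ((a⁻¹ : ℝ) : ℂ) ^ (1 - s) := by
    rw [cpow_inv_real ha0, ← Complex.cpow_neg]
    congr 1
    ring
  rw [j2, mul_assoc, e5, j4, ← intervalIntegral.integral_interval_add_Ioi iF
      (iF.mono_set (Ioi_subset_Ioi ha)), ← intervalIntegral.integral_interval_add_Ioi iG3 iG,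
    invert F G ρ s a ha hF hFG]
  ring

end Pool.Agent.H69.TC
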