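import Pool.Agent.H29.TC.Targets
import Pool.Agent.H69.TC.Cut

/-!
# (CU) the Mellin transform with a cut in the middle
-/

set_option autoImplicit false

open NumberField NumberField.InfinitePlace NumberField.Units
  NumberField.Units.dirichletUnitTheorem MeasureTheory Set Filter Complex
open scoped nonZeroDivisors ENNReal

namespace Pool.Agent.H69.TC

open Pool.Agent.H25.HK Pool.Agent.H28.RC Pool.Agent.H23.LB Pool.Agent.H29.TC

section
variable {K : Type} [Field K] [NumberField K]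

theorem tz_congr (S : Finset (RP K)) {M : FI K} {c c' : K → ℂ} (h : ∀ x ∈ M, c x = c' x) (ζ : ℂ)
    (y : InfinitePlace K → ℝ) : tz K S M c ζ y = tz K S M c' ζ y := by
  unfold tz
  refine tsum_congr fun x => ?_
  rw [h x.1 x.2]

/-- linearity of the theta series -/
theorem tz_sum (S : Finset (RP K)) {M : FI K} (X : Finset K) (c : K → ℂ) (cc : K → K → ℂ) (ζ : ℂ)
    (y : InfinitePlace K → ℝ)
    (hs : ∀ r ∈ X, Summable fun x : {x : K // x ∈ M} => ‖cc r x * ((ws K S y x : ℝ) : ℂ) *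
      (cexp (ζ * S.card / 2) * cexp (-Real.pi * (cexp ζ * ((qK K y x : ℝ) : ℂ))))‖) :
    ∑ r ∈ X, c r * tz K S M (cc r) ζ y = tz K S M (fun x => ∑ r ∈ X, c r * cc r x) ζ y := by
  unfold tz
  have h1 : ∀ r ∈ X, c r * (∑' x : {x : K // x ∈ M}, cc r x * ((ws K S y x : ℝ) : ℂ) *
      (cexp (ζ * S.card / 2) * cexp (-Real.pi * (cexp ζ * ((qK K y x : ℝ) : ℂ))))) =
      ∑' x : {x : K // x ∈ M}, c r * (cc r x * ((ws K S y x : ℝ) : ℂ) *
      (cexp (ζ * S.card / 2) * cexp (-Real.pi * (cexp ζ * ((qK K y x : ℝ) : ℂ))))) :=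
    fun r _ => tsum_mul_left.symm
  rw [Finset.sum_congr rfl h1, ← Summable.tsum_finsetSum fun r hr => (hs r hr).of_norm.mul_left _]
  refine tsum_congr fun x => ?_
  rw [Finset.sum_mul, Finset.sum_mul]
  exact Finset.sum_congr rfl fun r _ => by ring

omit [NumberField K] in
/-- a periodic function is the sum of its residue classes -/
theorem sum_ci {f : Ideal (𝓞 K)} {M : FI K} {X : Finset K} (hX : Rep K f M X) {c : K → ℂ}
    (hc : ∀ x ∈ M, ∀ t ∈ (f : FI K) * M, c (x + t) = c x) {x : K} (hx : x ∈ M) :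
    ∑ r ∈ X, c r * ci K f M r x = c x := by
  classical
  obtain ⟨r, ⟨hr, hxr⟩, hu⟩ := hX.2 x hx
  rw [Finset.sum_eq_single_of_mem r hr]
  · unfold ci
    rw [if_pos hxr, mul_one]
    have := hc r (hX.1 r hr) (x - r) hxr
    rw [add_sub_cancel] at this
    exact this.symm
  · intro r' hr' hne
    unfold ci
    rw [if_neg, mul_zero]
    intro h
    exact hne (hu r' ⟨hr', h⟩)

omit [NumberField K] in
theorem norm_ci_le (f : Ideal (𝓞 K)) (M : FI K) (r x : K) : ‖ci K f M r x‖ ≤ 1 := by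
  classical
  unfold ci
  split_ifs <;> simp

theorem norm_ca (r x : K) : ‖ca K r x‖ ≤ 1 := by
  unfold ca
  have : 2 * Real.pi * I * ((Algebra.trace ℚ K (r * x) : ℚ) : ℂ) =
      ((2 * Real.pi * ((Algebra.trace ℚ K (r * x) : ℚ) : ℝ) : ℝ) : ℂ) * I := by
    push_cast
    ring
  rw [this, Complex.norm_exp_ofReal_mul_I]

/-- the constant terms cancel -/
theorem sum_d0 {S : Finset (RP K)} {f : Ideal (𝓞 K)} {M : FI K} {X : Finset K}
    (hX : Rep K f M X) {c : K → ℂ} (hc : ∀ x ∈ M, ∀ t ∈ (f : FI K) * M, c (x + t) = c x)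
    (h0 : c 0 = 0) : ∑ r ∈ X, c r * d0 K S f M r = 0 := by
  classical
  refine Finset.sum_eq_zero fun r hr => ?_
  unfold d0
  split_ifs with h
  · have h1 := hc 0 (FractionalIdeal.zero_mem M) r h.2
    rw [zero_add, h0] at h1
    rw [h1, zero_mul]
  · rw [mul_zero]

theorem sum_d1 {S : Finset (RP K)} {X : Finset K} {c : K → ℂ} (h : ft K X c 0 = 0) :
    ∑ r ∈ X, c r * d1 K S = 0 := by
  have h1 : ft K X c 0 = ∑ r ∈ X, c r := by
    unfold ft
    simp
  rw [← Finset.sum_mul, ← h1, h, zero_mul]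

theorem cv_dual (hDU : T_DU) (f : Ideal (𝓞 K)) (hf : f ≠ ⊥) (M : FI K) (hM : M ≠ 0) :
    0 < cv K ((f : FI K) * M) ∧ 0 < Nf K f ∧
    cv K ((f : FI K) * du K ((f : FI K) * M)) = Nf K f / cv K ((f : FI K) * M) := by
  have hf' : ((f : Ideal (𝓞 K)) : FI K) ≠ 0 := by
    rwa [Ne, FractionalIdeal.coeIdeal_eq_zero]
  obtain ⟨-, -, -, h4, h5⟩ := hDU K ((f : FI K) * M) (mul_ne_zero hf' hM)
  have hd : 0 < |(discr K : ℝ)| := abs_pos.2 (Int.cast_ne_zero.2 (discr_ne_zero K))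
  have hsd : 0 < Real.sqrt |(discr K : ℝ)| := Real.sqrt_pos.2 hd
  have hN : (FractionalIdeal.absNorm ((f : Ideal (𝓞 K)) : FI K) : ℝ) = Nf K f := by
    unfold Nf
    rw [FractionalIdeal.coeIdeal_absNorm]
    simp
  have hNp : 0 < Nf K f := by
    unfold Nf
    have : Ideal.absNorm f ≠ 0 := by
      rwa [Ne, Ideal.absNorm_eq_zero_iff]
    exact_mod_cast Nat.pos_of_ne_zero this
  have hcv : 0 < cv K ((f : FI K) * M) := mul_pos hsd h4
  refine ⟨hcv, hNp, ?_⟩
  rw [eq_div_iff hcv.ne']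
  unfold cv
  have hsq : Real.sqrt |(discr K : ℝ)| * Real.sqrt |(discr K : ℝ)| = |(discr K : ℝ)| :=
    Real.mul_self_sqrt hd.le
  have e1 : (FractionalIdeal.absNorm ((f : FI K) * du K ((f : FI K) * M)) : ℝ) =
      Nf K f * (FractionalIdeal.absNorm (du K ((f : FI K) * M)) : ℝ) := by
    rw [map_mul, Rat.cast_mul, hN]
  rw [e1]
  calc Real.sqrt |(discr K : ℝ)| * (Nf K f *
        (FractionalIdeal.absNorm (du K ((f : FI K) * M)) : ℝ)) *
        (Real.sqrt |(discr K : ℝ)| * (FractionalIdeal.absNorm ((f : FI K) * M) : ℝ))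
      = Nf K f * ((FractionalIdeal.absNorm (du K ((f : FI K) * M)) : ℝ) *
        (FractionalIdeal.absNorm ((f : FI K) * M) : ℝ) *
        (Real.sqrt |(discr K : ℝ)| * Real.sqrt |(discr K : ℝ)|)) := by ring
    _ = Nf K f := by rw [hsq, h5, mul_one]

end

theorem pf_CU (hWF : T_WF) (hWC : T_WC) (hAZ : T_AZ) (hDU : T_DU) : T_CU := by
  intro K _ _ S f M X c φ hf hM hX hφ hc hc0 hft z s
  obtain ⟨hcv, hNp, hcvd⟩ := cv_dual hDU f hf M hM
  have hf' : ((f : Ideal (𝓞 K)) : FI K) ≠ 0 := by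
    rwa [Ne, FractionalIdeal.coeIdeal_eq_zero]
  have hM' : du K ((f : FI K) * M) ≠ 0 := (hDU K _ (mul_ne_zero hf' hM)).1
  set a : ℝ := Real.sqrt (Nf K f) with ha
  have hN1 : 1 ≤ Nf K f := by
    unfold Nf at hNp ⊢
    exact_mod_cast Nat.one_le_iff_ne_zero.2 (fun h => by
      rw [h] at hNp
      simp at hNp)
  have ha1 : 1 ≤ a := by
    rw [ha, Real.one_le_sqrt]
    exact hN1
  have ha0 : 0 < a := lt_of_lt_of_le one_pos ha1
  have haa : a * a = Nf K f := Real.mul_self_sqrt hNp.le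
  -- summability
  have h0M : (0 : K) ∈ M := FractionalIdeal.zero_mem M
  obtain ⟨hsum, -, -, -⟩ := hWC K S f M 0 φ hf hM h0M hφ
  have him1 : |((φ : ℂ) * I).im| < Real.pi / 2 := by simpa using hφ
  have him2 : |(-((φ : ℂ) * I)).im| < Real.pi / 2 := by simpa using hφ
  set F : ℝ → ℂ := fun T => ∑ r ∈ X, c r * W K S f M r φ z T with hF
  set G : ℝ → ℂ := fun T => ∑ r ∈ X, c r * W' K S f M r φ z T with hG
  have eF : ∀ T : ℝ, Wc K S f M c φ z T = F (T * a) := by
    intro T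
    show tz K S M c (φ * I) _ = ∑ r ∈ X, c r * tz K S M (ci K f M r) (φ * I) _
    rw [tz_sum S X c (ci K f M) (φ * I) _ fun r _ => hsum M (ci K f M r) (φ * I) hM
      (fun x _ => norm_ci_le f M r x) him1 _]
    exact tz_congr S (fun x hx => (sum_ci hX hc hx).symm) _ _
  have eG : ∀ T : ℝ, Wc K S f (du K ((f : FI K) * M)) (ft K X c) (-φ) (-z) T = G (T * a⁻¹) := by
    intro T
    have e1 : T * a / cv K ((f : FI K) * du K ((f : FI K) * M)) =
        T * a⁻¹ * cv K ((f : FI K) * M) := by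
      rw [hcvd, ← haa]
      field_simp
    show tz K S (du K ((f : FI K) * M)) (ft K X c) (((-φ : ℝ) : ℂ) * I)
      (yc K (Real.log (T * a / cv K ((f : FI K) * du K ((f : FI K) * M)))) (-z)) =
      ∑ r ∈ X, c r * tz K S (du K ((f : FI K) * M)) (ca K r) (-(φ * I))
        (yc K (Real.log (T * a⁻¹ * cv K ((f : FI K) * M))) (-z))
    rw [e1, tz_sum S X c (ca K) (-(φ * I)) _ fun r _ => hsum _ (ca K r) (-(φ * I)) hM'
      (fun x _ => norm_ca r x) him2 _]
    have e2 : (((-φ : ℝ) : ℂ) * I) = -(φ * I) := by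
      push_cast
      ring
    rw [e2]
    rfl
  have hrM : ∀ r ∈ X, r ∈ M := hX.1
  have hFc : ContinuousOn F (Ioi 0) := by
    refine continuousOn_finsetSum _ fun r hr => continuousOn_const.mul ?_
    obtain ⟨-, h2, -, -⟩ := hWC K S f M r φ hf hM (hrM r hr) hφ
    exact h2.comp (f := fun T : ℝ => (T, z)) (by fun_prop) fun T hT => ⟨hT, mem_univ _⟩
  have hGc : ContinuousOn G (Ioi 0) := by
    refine continuousOn_finsetSum _ fun r hr => continuousOn_const.mul ?_
    obtain ⟨-, -, h2, -⟩ := hWC K S f M r φ hf hM (hrM r hr) hφ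
    exact h2.comp (f := fun T : ℝ => (T, z)) (by fun_prop) fun T hT => ⟨hT, mem_univ _⟩
  have hFG : ∀ T : ℝ, 0 < T → F (1 / T) = T * rn K S φ * G T := by
    intro T hT
    show ∑ r ∈ X, c r * W K S f M r φ z (1 / T) = T * rn K S φ * ∑ r ∈ X, c r * W' K S f M r φ z T
    rw [Finset.mul_sum]
    refine Finset.sum_congr rfl fun r hr => ?_
    rw [hWF K S f M r φ hf hM (hrM r hr) hφ z T hT]
    ring
  have hd0 := sum_d0 (S := S) hX hc hc0
  have hd1 := sum_d1 (S := S) hft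
  have fF : ∀ T : ℝ, F T * (T : ℂ) ^ (s - 1) =
      ∑ r ∈ X, c r * ((W K S f M r φ z T - d0 K S f M r) * (T : ℂ) ^ (s - 1)) := by
    intro T
    have : F T = ∑ r ∈ X, c r * (W K S f M r φ z T - d0 K S f M r) := by
      simp only [mul_sub, Finset.sum_sub_distrib, hd0, sub_zero]
      rfl
    rw [this, Finset.sum_mul]
    exact Finset.sum_congr rfl fun r _ => by ring
  have fG : ∀ T : ℝ, G T * (T : ℂ) ^ (-s) =
      ∑ r ∈ X, c r * ((W' K S f M r φ z T - d1 K S) * (T : ℂ) ^ (-s)) := by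
    intro T
    have : G T = ∑ r ∈ X, c r * (W' K S f M r φ z T - d1 K S) := by
      simp only [mul_sub, Finset.sum_sub_distrib, hd1, sub_zero]
      rfl
    rw [this, Finset.sum_mul]
    exact Finset.sum_congr rfl fun r _ => by ring
  have hint : ∀ r ∈ X,
      IntegrableOn (fun T : ℝ => (W K S f M r φ z T - d0 K S f M r) * (T : ℂ) ^ (s - 1))
        (Ioi 1) ∧
      IntegrableOn (fun T : ℝ => (W' K S f M r φ z T - d1 K S) * (T : ℂ) ^ (-s)) (Ioi 1) :=
    fun r hr => (hAZ K S f M r φ hf hM (hrM r hr) hφ).2.2.2 z s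
  have iF : IntegrableOn (fun T : ℝ => F T * (T : ℂ) ^ (s - 1)) (Ioi 1) := by
    have : (fun T : ℝ => F T * (T : ℂ) ^ (s - 1)) = fun T =>
        ∑ r ∈ X, c r * ((W K S f M r φ z T - d0 K S f M r) * (T : ℂ) ^ (s - 1)) := funext fF
    rw [this]
    exact integrable_finsetSum _ fun r hr => (hint r hr).1.const_mul _
  have iG : IntegrableOn (fun T : ℝ => G T * (T : ℂ) ^ (-s)) (Ioi 1) := by
    have : (fun T : ℝ => G T * (T : ℂ) ^ (-s)) = fun T =>
        ∑ r ∈ X, c r * ((W' K S f M r φ z T - d1 K S) * (T : ℂ) ^ (-s)) := funext fG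
    rw [this]
    exact integrable_finsetSum _ fun r hr => (hint r hr).2.const_mul _
  obtain ⟨k1, k2, k3⟩ := cut F G (rn K S φ) s a ha1 hFc hGc hFG iF iG
  simp only [eF, eG]
  refine ⟨k1, k2, ?_⟩
  rw [← k3]
  have m1 : (∫ T in Ioi (1 : ℝ), F T * (T : ℂ) ^ (s - 1)) = ∑ r ∈ X, c r *
      ∫ T in Ioi (1 : ℝ), (W K S f M r φ z T - d0 K S f M r) * (T : ℂ) ^ (s - 1) := by
    simp only [fF]
    rw [integral_finsetSum _ fun r hr => (hint r hr).1.const_mul _]
    exact Finset.sum_congr rfl fun r _ => integral_const_mul _ _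
  have m2 : (∫ T in Ioi (1 : ℝ), G T * (T : ℂ) ^ (-s)) = ∑ r ∈ X, c r *
      ∫ T in Ioi (1 : ℝ), (W' K S f M r φ z T - d1 K S) * (T : ℂ) ^ (-s) := by
    simp only [fG]
    rw [integral_finsetSum _ fun r hr => (hint r hr).2.const_mul _]
    exact Finset.sum_congr rfl fun r _ => integral_const_mul _ _
  rw [m1, m2, Finset.mul_sum, ← Finset.sum_add_distrib]
  have m3 : ∑ r ∈ X, c r * EZ K S f M r φ z s = ∑ r ∈ X, c r * E0 K S f M r φ z s := by
    have e3 : ∀ r ∈ X, c r * EZ K S f M r φ z s = c r * E0 K S f M r φ z s -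
        (c r * d0 K S f M r) / s - rn K S φ * (c r * d1 K S) / (1 - s) := by
      intro r _
      unfold EZ
      ring
    rw [Finset.sum_congr rfl e3, Finset.sum_sub_distrib, Finset.sum_sub_distrib,
      ← Finset.sum_div, ← Finset.sum_div, ← Finset.mul_sum, hd0, hd1]
    simp
  rw [m3]
  refine Finset.sum_congr rfl fun r _ => ?_
  unfold E0
  ring

end Pool.Agent.H69.TC
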