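import Pool.Agent.H29.TC.Targets
import Pool.Agent.H34.LB.BD
import Pool.Agent.H69.TC.CU

/-!
# (BB) the bound for the Mellin transforms
-/

set_option autoImplicit false

open NumberField NumberField.InfinitePlace NumberField.Units
  NumberField.Units.dirichletUnitTheorem MeasureTheory Set Filter Complex
open scoped nonZeroDivisors ENNReal

namespace Pool.Agent.H69.TC

open Pool.Agent.H25.HK Pool.Agent.H28.RC Pool.Agent.H23.LB Pool.Agent.H29.TC

section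
variable {K : Type} [Field K] [NumberField K]

omit [NumberField K] in
theorem lc_conj {f : Ideal (𝓞 K)} {η : 𝓞 K ⧸ f → ℂ} (h : LC f η) :
    LC f (fun a => (starRingEnd ℂ) (η a)) := by
  refine ⟨⟨?_, ?_, ?_, ?_⟩, ?_⟩
  · show (starRingEnd ℂ) (η 1) = 1
    rw [h.mc.one, map_one]
  · intro x y
    show (starRingEnd ℂ) (η (x * y)) = (starRingEnd ℂ) (η x) * (starRingEnd ℂ) (η y)
    rw [h.mc.mul, map_mul]
  · intro x hx
    show ‖(starRingEnd ℂ) (η x)‖ = 1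
    rw [RCLike.norm_conj, h.mc.unit x hx]
  · intro x hx
    show (starRingEnd ℂ) (η x) = 0
    rw [h.mc.zero x hx, map_zero]
  · intro w hw
    obtain ⟨r, h1, h2⟩ := h.prim w hw
    refine ⟨r, h1, fun h3 => h2 ?_⟩
    have h4 := congrArg (starRingEnd ℂ) h3
    rw [Complex.conj_conj, map_one] at h4
    exact h4

omit [NumberField K] in
theorem conj_cq (f : Ideal (𝓞 K)) (η : 𝓞 K ⧸ f → ℂ) (M : FI K) (x₀ x : K) :
    (starRingEnd ℂ) (cq f η M x₀ x) = cq f (fun a => (starRingEnd ℂ) (η a)) M x₀ x := by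
  unfold cq
  split_ifs
  · rfl
  · exact map_zero _

theorem ft_congr {X : Finset K} {c c' : K → ℂ} (h : ∀ x ∈ X, c x = c' x) (y : K) :
    ft K X c y = ft K X c' y := by
  unfold ft
  exact Finset.sum_congr rfl fun r hr => by rw [h r hr]

theorem tz_const (S : Finset (RP K)) (M : FI K) (α : ℂ) (c : K → ℂ) (ζ : ℂ)
    (y : InfinitePlace K → ℝ) : tz K S M (fun x => α * c x) ζ y = α * tz K S M c ζ y := by
  unfold tz
  rw [← tsum_mul_left]
  exact tsum_congr fun x => by ring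

omit [NumberField K] in
theorem fk_le_k (l g k : Ideal (𝓞 K)) : fk l g k ≤ k := by
  have h1 : k ^ 2 ≤ k := by
    rw [pow_two]
    exact Ideal.mul_le_left
  have h2 : g * k ^ 2 ≤ k ^ 2 := Ideal.mul_le_right
  have h3 : l * (g * k ^ 2) ≤ g * k ^ 2 := Ideal.mul_le_right
  exact h3.trans (h2.trans h1)

theorem mem_mul_mono {i j : Ideal (𝓞 K)} (h : i ≤ j) {M : FI K} {x : K}
    (hx : x ∈ (i : FI K) * M) : x ∈ (j : FI K) * M := by
  have h1 : ((i : Ideal (𝓞 K)) : FI K) ≤ (j : FI K) := (FractionalIdeal.coeIdeal_le_coeIdeal K).2 h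
  have h2 : ((i : Ideal (𝓞 K)) : FI K) * M ≤ (j : FI K) * M := by
    gcongr
  exact h2 hx

end

theorem pf_BB (hSP : T_SP) (hTR : Pool.Agent.H29.TC.T_TR) (hMU : T_MU) (hCU : T_CU) (hGX : T_GX) (hCF : T_CF)
    (hWC : T_WC) (hDU : T_DU) (hRX : T_RX) : T_BB := by
  intro n hn
  obtain ⟨B, hB⟩ := hMU n hn
  refine ⟨B, fun κ hκ hκ1 => ?_⟩
  obtain ⟨C, hC⟩ := hB κ hκ hκ1
  refine ⟨8 / κ * C, ?_⟩
  intro K _ _ hdeg S l g k hG χ hχ M X X₁ φ hM hX hX₁ hφ z s hs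
  have hk := hG.k_ne
  have hlg : l * g ≠ ⊥ := mul_ne_zero hG.l_ne hG.g_ne
  have hf : fk l g k ≠ ⊥ := mul_ne_zero hG.l_ne (mul_ne_zero hG.g_ne (pow_ne_zero 2 hk))
  have hle : fk l g k ≤ l * g := fk_le l g k
  have hfk : fk l g k ≤ k := fk_le_k l g k
  have hftop : fk l g k ≠ ⊤ := fun h => hG.k_top (top_le_iff.1 (h ▸ hfk))
  have hl : l * g ≤ l := Ideal.mul_le_left
  have hf' : ((fk l g k : Ideal (𝓞 K)) : FI K) ≠ 0 := by
    rwa [Ne, FractionalIdeal.coeIdeal_eq_zero]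
  set M' : FI K := du K ((fk l g k : FI K) * M) with hM'd
  have hM' : M' ≠ 0 := (hDU K _ (mul_ne_zero hf' hM)).1
  obtain ⟨hcv, hNp, hcvd⟩ := cv_dual hDU (fk l g k) hf M hM
  set N : ℝ := Nf K (fk l g k) with hN
  have hN1 : 1 ≤ N := by
    rw [hN]
    unfold Nf at hN ⊢
    have h0 : 0 < ((Ideal.absNorm (fk l g k) : ℕ) : ℝ) := by
      rw [← hN]
      exact hNp
    have h1 : 0 < Ideal.absNorm (fk l g k) := by exact_mod_cast h0
    exact_mod_cast h1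
  -- the local components
  obtain ⟨η, hη, hη2⟩ := hSP K l g k hG χ hχ
  obtain ⟨x₀, hx₀⟩ := hGX K (fk l g k) M hf hM
  obtain ⟨y₀, hy₀⟩ := hGX K (fk l g k) M' hf hM'
  obtain ⟨c, hc1, hc2, hc3⟩ := hη2 M x₀ hM hx₀
  obtain ⟨Y, hY, -⟩ := hRX K (l * g) M' hlg hM'
  obtain ⟨hT1, hT2⟩ := hTR K l g k hG η hη M x₀ y₀ c X X₁ Y hM hx₀ hy₀ hc1 hc2 hX hX₁ hY
  obtain ⟨-, -, -, -, hper, -, -, hzero, -⟩ := hCF K (fk l g k) χ M hf hM
  have hX₁M : ∀ r ∈ X₁, r ∈ M := hX₁.1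
  have hXM : ∀ r ∈ X, r ∈ M := hX.1
  -- the coefficients of a class
  set cc : K → K → ℂ := fun r => cr K (l * g) M (cf χ M) r with hcc
  have hccper : ∀ r, ∀ x ∈ M, ∀ t ∈ ((fk l g k : Ideal (𝓞 K)) : FI K) * M,
      cc r (x + t) = cc r x := by
    intro r x hx t ht
    show ci K (l * g) M r (x + t) * cf χ M (x + t) = ci K (l * g) M r x * cf χ M x
    rw [hper x hx t ht]
    congr 1
    have ht' : t ∈ ((l * g : Ideal (𝓞 K)) : FI K) * M := mem_mul_mono hle ht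
    have hiff : x + t - r ∈ ((l * g : Ideal (𝓞 K)) : FI K) * M ↔
        x - r ∈ ((l * g : Ideal (𝓞 K)) : FI K) * M := by
      constructor
      · intro h
        have h2 := (((l * g : Ideal (𝓞 K)) : FI K) * M).coeToSubmodule.sub_mem h ht'
        have h3 : x + t - r - t = x - r := by ring
        rw [h3] at h2
        exact h2
      · intro h
        have h2 := (((l * g : Ideal (𝓞 K)) : FI K) * M).coeToSubmodule.add_mem h ht'
        have h3 : x - r + t = x + t - r := by ring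
        rw [h3] at h2
        exact h2
    by_cases h : x - r ∈ ((l * g : Ideal (𝓞 K)) : FI K) * M
    · have e1 : ci K (l * g) M r x = 1 := if_pos h
      have e2 : ci K (l * g) M r (x + t) = 1 := if_pos (hiff.2 h)
      rw [e1, e2]
    · have e1 : ci K (l * g) M r x = 0 := if_neg h
      have e2 : ci K (l * g) M r (x + t) = 0 := if_neg fun h' => h (hiff.1 h')
      rw [e1, e2]
  have hcc0 : ∀ r, cc r 0 = 0 := by
    intro r
    show ci K (l * g) M r 0 * cf χ M 0 = 0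
    rw [hzero hftop, mul_zero]
  have hccM : ∀ r, ∀ x ∈ M, cc r x =
      cr K (l * g) M (fun x => c x * cq (g * k ^ 2) η M x₀ x) r x := by
    intro r x hx
    show ci K (l * g) M r x * cf χ M x = ci K (l * g) M r x * (c x * cq (g * k ^ 2) η M x₀ x)
    rw [hc3 x hx]
  have hft : ∀ r, ∀ y, ft K X (cc r) y =
      ft K X (cr K (l * g) M (fun x => c x * cq (g * k ^ 2) η M x₀ x) r) y := fun r y =>
    ft_congr (fun x hx => hccM r x (hXM x hx)) y
  have hcu : ∀ r ∈ X₁, _ := fun r hr => hCU K S (fk l g k) M X (cc r) φ hf hM hX hφ (hccper r)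
    (hcc0 r) (by rw [hft]; exact hT1 r hr) z s
  -- first half
  set P : ℝ → ℝ := fun T => ∑ r ∈ X₁,
    ‖Wc K S (fk l g k) M (cr K (l * g) M (cq (g * k ^ 2) η M x₀) r) φ z T‖ ^ 2 with hP
  obtain ⟨iP, bP⟩ := hC K hdeg S l g k hG η hη M x₀ X₁ φ hM hx₀ hX₁ hφ z
  have hcN : ∀ r ∈ X₁, ∀ x ∈ M, cc r x = c r * cr K (l * g) M (cq (g * k ^ 2) η M x₀) r x := by
    intro r hr x hx
    rw [hccM r x hx]
    show ci K (l * g) M r x * (c x * cq (g * k ^ 2) η M x₀ x) =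
      c r * (ci K (l * g) M r x * cq (g * k ^ 2) η M x₀ x)
    by_cases h : x - r ∈ ((l * g : Ideal (𝓞 K)) : FI K) * M
    · have h1 := hc2 r (hX₁M r hr) (x - r) (mem_mul_mono hl h)
      rw [add_sub_cancel] at h1
      rw [h1]
      ring
    · have h1 : ci K (l * g) M r x = 0 := if_neg h
      rw [h1]
      ring
  have hFle : ∀ T : ℝ, 1 < T →
      ∑ r ∈ X₁, ‖Wc K S (fk l g k) M (cc r) φ z T‖ ^ 2 ≤ P T := by
    intro T _
    refine Finset.sum_le_sum fun r hr => ?_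
    have e1 : Wc K S (fk l g k) M (cc r) φ z T = c r *
        Wc K S (fk l g k) M (cr K (l * g) M (cq (g * k ^ 2) η M x₀) r) φ z T := by
      unfold Wc
      rw [← tz_const, tz_congr S (hcN r hr)]
    rw [e1, norm_mul]
    refine pow_le_pow_left₀ (by positivity) ?_ 2
    exact mul_le_of_le_one_left (norm_nonneg _) (hc1 r (hX₁M r hr))
  have hs' := abs_le.1 hs
  have hF := Pool.Agent.H34.LB.fam_cs X₁ (fun r T => Wc K S (fk l g k) M (cc r) φ z T) (s - 1) κ hκ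
    (by rw [Complex.sub_re, Complex.one_re]; linarith [hs'.2]) (fun r hr => (hcu r hr).1) P iP hFle
  -- second half
  set Q : ℝ → ℝ := fun T => ∑ r ∈ Y, ‖Wc K S (fk l g k) M'
    (cr K (l * g) M' (cq (g * k ^ 2) (fun a => (starRingEnd ℂ) (η a)) M' y₀) r) (-φ) (-z) T‖ ^ 2
    with hQ
  have hφ' : |-φ| < Real.pi / 2 := by rwa [abs_neg]
  obtain ⟨iQ, bQ⟩ := hC K hdeg S l g k hG _ (lc_conj hη) M' y₀ Y (-φ) hM' hy₀ hY hφ' (-z)
  have h0M : (0 : K) ∈ M := FractionalIdeal.zero_mem M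
  obtain ⟨hsum, -, -, -⟩ := hWC K S (fk l g k) M 0 φ hf hM h0M hφ
  have him : |((((-φ : ℝ) : ℂ)) * I).im| < Real.pi / 2 := by simpa using hφ
  have hGle : ∀ T : ℝ, 1 < T →
      ∑ r ∈ X₁, ‖Wc K S (fk l g k) M' (ft K X (cc r)) (-φ) (-z) T‖ ^ 2 ≤ N * Q T := by
    intro T _
    set y : InfinitePlace K → ℝ :=
      yc K (Real.log (T * Real.sqrt (Nf K (fk l g k)) / cv K ((fk l g k : FI K) * M'))) (-z)
      with hy
    set b : K → ℂ := fun x => ((ws K S y x : ℝ) : ℂ) *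
      (cexp ((((-φ : ℝ) : ℂ) * I) * S.card / 2) *
        cexp (-Real.pi * (cexp (((-φ : ℝ) : ℂ) * I) * ((qK K y x : ℝ) : ℂ)))) with hb
    have hbs : Summable (fun y : {y : K // y ∈ M'} => ‖b y‖) := by
      have := hsum M' (fun _ => 1) (((-φ : ℝ) : ℂ) * I) hM' (fun x _ => by simp) him y
      simpa only [one_mul] using this
    have e2 : ∀ d : K → ℂ, Wc K S (fk l g k) M' d (-φ) (-z) T =
        ∑' x : {y : K // y ∈ M'}, d x * b x := by
      intro d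
      unfold Wc tz
      exact tsum_congr fun x => by rw [hb]; ring
    have h2 := hT2 b hbs
    simp only [e2]
    have e3 : ∀ r, (∑' x : {y : K // y ∈ M'}, ft K X (cc r) x * b x) =
        ∑' x : {y : K // y ∈ M'},
          ft K X (cr K (l * g) M (fun x => c x * cq (g * k ^ 2) η M x₀ x) r) x * b x := fun r =>
      tsum_congr fun x => by rw [hft]
    simp only [e3]
    refine h2.trans (le_of_eq ?_)
    rw [hQ]
    simp only [e2]
    congr 1
    refine Finset.sum_congr rfl fun r _ => ?_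
    congr 2
    refine tsum_congr fun x => ?_
    unfold cr
    beta_reduce
    rw [conj_cq]
  have iQ' : IntegrableOn (fun T : ℝ => (N * Q T) * T ^ (κ / 2)) (Ioi 1) := by
    have : (fun T : ℝ => (N * Q T) * T ^ (κ / 2)) = fun T : ℝ => N * (Q T * T ^ (κ / 2)) := by
      funext T
      ring
    rw [this]
    exact iQ.const_mul N
  have hGG := Pool.Agent.H34.LB.fam_cs X₁
    (fun r T => Wc K S (fk l g k) M' (ft K X (cc r)) (-φ) (-z) T) (-s) κ hκ
    (by rw [Complex.neg_re]; linarith [hs'.1]) (fun r hr => (hcu r hr).2.1) (fun T => N * Q T) iQ'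
    hGle
  have eQ : (∫ T in Ioi (1 : ℝ), (N * Q T) * T ^ (κ / 2)) =
      N * ∫ T in Ioi (1 : ℝ), Q T * T ^ (κ / 2) := by
    rw [← integral_const_mul]
    refine integral_congr_ae (Eventually.of_forall fun T => ?_)
    show (N * Q T) * T ^ (κ / 2) = N * (Q T * T ^ (κ / 2))
    ring
  rw [eQ] at hGG
  -- the bounds
  set q : ℝ := 1 + Nf K k / Nf K (l * g) with hq
  set V₁ : ℝ := C * Real.cos φ ^ (-B) * N ^ (1 / 2 + 4 * κ) * q * Et K κ (l * g) k M z with hV₁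
  set V₂ : ℝ := C * Real.cos φ ^ (-B) * N ^ (1 / 2 + 4 * κ) * q * Et K κ (l * g) k M' (-z)
    with hV₂
  rw [Real.cos_neg] at bQ
  have nonneg : ∀ (H : ℝ → ℝ), (∀ T, 0 ≤ H T) →
      0 ≤ ∫ T in Ioi (1 : ℝ), H T * T ^ (κ / 2) := fun H hH =>
    setIntegral_nonneg measurableSet_Ioi fun T hT => mul_nonneg (hH T) (Real.rpow_nonneg (by
      rw [mem_Ioi] at hT
      linarith) _)
  have n1 := nonneg P fun T => Finset.sum_nonneg fun r _ => sq_nonneg _
  have n2 := nonneg Q fun T => Finset.sum_nonneg fun r _ => sq_nonneg _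
  have v1 : (∫ T in Ioi (1 : ℝ), P T * T ^ (κ / 2)) ≤ V₁ := bP
  have v2 : (∫ T in Ioi (1 : ℝ), Q T * T ^ (κ / 2)) ≤ V₂ := bQ
  have hV1 : 0 ≤ V₁ := n1.trans v1
  have hV2 : 0 ≤ V₂ := n2.trans v2
  set a : ℝ := Real.sqrt N with ha
  have ha0 : 0 < a := Real.sqrt_pos.2 hNp
  have haN : ∀ t : ℝ, (a ^ t) ^ 2 = N ^ t := by
    intro t
    rw [← Real.rpow_natCast, ← Real.rpow_mul ha0.le, mul_comm, Real.rpow_mul ha0.le]
    congr 1
    rw [Real.rpow_natCast, ha, Real.sq_sqrt hNp.le]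
  have hkey : ∀ r ∈ X₁, ‖∑ r' ∈ X, cr K (l * g) M (cf χ M) r r' *
      EZ K S (fk l g k) M r' φ z s‖ ^ 2 ≤
      2 * (N ^ s.re * ‖∫ T in Ioi (1 : ℝ), Wc K S (fk l g k) M (cc r) φ z T *
        (T : ℂ) ^ (s - 1)‖ ^ 2) +
      2 * (N ^ (s.re - 1) * ‖∫ T in Ioi (1 : ℝ),
        Wc K S (fk l g k) M' (ft K X (cc r)) (-φ) (-z) T * (T : ℂ) ^ (-s)‖ ^ 2) := by
    intro r hr
    have h3 := (hcu r hr).2.2
    have h4 : (∑ r' ∈ X, cr K (l * g) M (cf χ M) r r' * EZ K S (fk l g k) M r' φ z s) =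
        _ := h3
    rw [h4]
    set J₁ : ℂ := ∫ T in Ioi (1 : ℝ), Wc K S (fk l g k) M (cc r) φ z T * (T : ℂ) ^ (s - 1)
      with hJ₁
    set J₂ : ℂ := ∫ T in Ioi (1 : ℝ),
        Wc K S (fk l g k) M' (ft K X (cc r)) (-φ) (-z) T * (T : ℂ) ^ (-s) with hJ₂
    have m1 : ‖((Real.sqrt (Nf K (fk l g k)) : ℝ) : ℂ) ^ s‖ = a ^ s.re :=
      Complex.norm_cpow_eq_rpow_re_of_pos ha0 s
    have m2 : ‖((Real.sqrt (Nf K (fk l g k)) : ℝ) : ℂ) ^ (s - 1)‖ = a ^ (s.re - 1) := by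
      have := Complex.norm_cpow_eq_rpow_re_of_pos ha0 (s - 1)
      rw [Complex.sub_re, Complex.one_re] at this
      exact this
    have t1 : ‖((Real.sqrt (Nf K (fk l g k)) : ℝ) : ℂ) ^ s * J₁ +
        rn K S φ * ((Real.sqrt (Nf K (fk l g k)) : ℝ) : ℂ) ^ (s - 1) * J₂‖ ≤
        a ^ s.re * ‖J₁‖ + a ^ (s.re - 1) * ‖J₂‖ := by
      refine (norm_add_le _ _).trans (le_of_eq ?_)
      rw [norm_mul, norm_mul, norm_mul, m1, m2, Pool.Agent.H34.LB.norm_rn, one_mul]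
    have t2 : (a ^ s.re * ‖J₁‖ + a ^ (s.re - 1) * ‖J₂‖) ^ 2 ≤
        2 * (N ^ s.re * ‖J₁‖ ^ 2) + 2 * (N ^ (s.re - 1) * ‖J₂‖ ^ 2) := by
      rw [← haN s.re, ← haN (s.re - 1)]
      have := sq_nonneg (a ^ s.re * ‖J₁‖ - a ^ (s.re - 1) * ‖J₂‖)
      nlinarith
    exact (pow_le_pow_left₀ (norm_nonneg _) t1 2).trans t2
  refine (Finset.sum_le_sum hkey).trans ?_
  rw [Finset.sum_add_distrib, ← Finset.mul_sum, ← Finset.mul_sum, ← Finset.mul_sum,
    ← Finset.mul_sum]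
  have hNs : 0 < N ^ s.re := Real.rpow_pos_of_pos hNp _
  have hNs1 : 0 < N ^ (s.re - 1) := Real.rpow_pos_of_pos hNp _
  have hNN : N ^ (s.re - 1) * N = N ^ s.re := by
    rw [Real.rpow_sub_one hNp.ne', div_mul_cancel₀ _ hNp.ne']
  have s1 : 2 * (N ^ s.re * ∑ r ∈ X₁, ‖∫ T in Ioi (1 : ℝ), Wc K S (fk l g k) M (cc r) φ z T *
        (T : ℂ) ^ (s - 1)‖ ^ 2) ≤ 2 * (N ^ s.re * (4 / κ * V₁)) := by
    refine mul_le_mul_of_nonneg_left (mul_le_mul_of_nonneg_left ?_ hNs.le) (by norm_num)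
    exact hF.trans (mul_le_mul_of_nonneg_left v1 (by positivity))
  have s2 : 2 * (N ^ (s.re - 1) * ∑ r ∈ X₁, ‖∫ T in Ioi (1 : ℝ),
        Wc K S (fk l g k) M' (ft K X (cc r)) (-φ) (-z) T * (T : ℂ) ^ (-s)‖ ^ 2) ≤
      2 * (N ^ (s.re - 1) * (4 / κ * (N * V₂))) := by
    refine mul_le_mul_of_nonneg_left (mul_le_mul_of_nonneg_left ?_ hNs1.le) (by norm_num)
    exact hGG.trans (mul_le_mul_of_nonneg_left (mul_le_mul_of_nonneg_left v2 hNp.le)
      (by positivity))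
  refine (add_le_add s1 s2).trans ?_
  have s3 : 2 * (N ^ s.re * (4 / κ * V₁)) + 2 * (N ^ (s.re - 1) * (4 / κ * (N * V₂))) =
      8 / κ * (N ^ s.re * (V₁ + V₂)) := by
    have : N ^ (s.re - 1) * (4 / κ * (N * V₂)) = 4 / κ * ((N ^ (s.re - 1) * N) * V₂) := by ring
    rw [this, hNN]
    ring
  rw [s3]
  have s4 : N ^ s.re * (V₁ + V₂) ≤ N ^ (1 / 2 + κ) * (V₁ + V₂) := by
    refine mul_le_mul_of_nonneg_right ?_ (add_nonneg hV1 hV2)
    exact Real.rpow_le_rpow_of_exponent_le hN1 (by linarith [hs'.2])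
  refine (mul_le_mul_of_nonneg_left s4 (by positivity)).trans (le_of_eq ?_)
  have s5 : N ^ (1 + 5 * κ) = N ^ (1 / 2 + κ) * N ^ (1 / 2 + 4 * κ) := by
    rw [← Real.rpow_add hNp]
    congr 1
    ring
  rw [hV₁, hV₂, s5]
  ring

end Pool.Agent.H69.TC
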