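import Pool.Agent.H29.TC.Targets

/-!
# (ME) the mean value of the sum of Epstein zeta functions
-/

set_option autoImplicit false

open NumberField NumberField.InfinitePlace NumberField.Units
  NumberField.Units.dirichletUnitTheorem MeasureTheory Set Filter Complex
open scoped nonZeroDivisors ENNReal

namespace Pool.Agent.H69.TC

open Pool.Agent.H25.HK Pool.Agent.H28.RC Pool.Agent.H23.LB Pool.Agent.H29.TC

open scoped Classical in
theorem intOnFdR (K : Type) [Field K] [NumberField K] (F : logSpace K → ℝ) (hF : Continuous F) :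
    IntegrableOn F (Fd K) := by
  have hb : Bornology.IsBounded (Fd K) := ZSpan.fundamentalDomain_isBounded _
  exact (hF.continuousOn.integrableOn_compact hb.isCompact_closure).mono_set subset_closure

section
variable {K : Type} [Field K] [NumberField K]

theorem cont_AS (hFP : T_FP) (hRR : T_RR) {ι : Type} {L : ι → FI K} (hL : Reps K L) {κ : ℝ}
    (hκ : 0 < κ) (c : ι) : Continuous (fun z => AS K κ (L c) z) := by
  have hd := (hRR K ι L hL).2.1
  have h1 := ((hFP K (L c) (hL.1 c)).2.2.2.2.2 κ hκ).1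
  have h2 := ((hFP K (du K (L c)) (hd.1 c)).2.2.2.2.2 κ hκ).1
  unfold AS
  exact h1.add (h2.comp continuous_neg)

/-- the representatives which occur in `Et` -/
theorem reps_mul (hRR : T_RR) {ι : Type} {L : ι → FI K} (hL : Reps K L) {j : Ideal (𝓞 K)}
    (hj : j ≠ ⊥) : Reps K (fun c => (j : FI K) * L c) := (hRR K ι L hL).1 j hj

theorem cont_Et (hFP : T_FP) (hRR : T_RR) (hDF : T_DF) {ι : Type} {L : ι → FI K} (hL : Reps K L)
    {κ : ℝ} (hκ : 0 < κ) {g k : Ideal (𝓞 K)} (hg : g ≠ ⊥) (hk : k ≠ ⊥) (c : ι) :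
    Continuous (fun z => Et K κ g k (L c) z) := by
  unfold Et
  refine ((cont_AS hFP hRR hL hκ c).add (cont_AS hFP hRR (reps_mul hRR hL
    (pow_ne_zero 2 hk : k ^ 2 ≠ ⊥)) hκ c)).add (continuous_finsetSum _ fun e he => ?_)
  have he' : e ≠ ⊥ := fun h => hk (by
    have := (hDF K k hk e).1 he
    rw [h] at this
    exact le_bot_iff.1 this)
  exact cont_AS hFP hRR (reps_mul hRR hL (mul_ne_zero hg he')) hκ c

end

open scoped Classical in
theorem pf_ME (hA1 : T_A1) (hRR : T_RR) (hFP : T_FP) (hDF : T_DF) : T_ME' := by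
  intro n κ hκ
  obtain ⟨C₀, hC₀⟩ := hA1 n κ hκ
  refine ⟨12 * |C₀|, ?_⟩
  intro K _ _ hn ι _ M hM l g k hG
  have hk := hG.k_ne
  have hlg : l * g ≠ ⊥ := mul_ne_zero hG.l_ne hG.g_ne
  have hfk : fk l g k ≠ ⊥ := mul_ne_zero hG.l_ne (mul_ne_zero hG.g_ne (pow_ne_zero 2 hk))
  set B : ℝ := |C₀| * cw K * |(discr K : ℝ)| ^ ((1 + κ) / 2) with hB
  have hcw : 0 ≤ cw K := by
    unfold cw
    positivity
  have hB0 : 0 ≤ B := by
    rw [hB]
    positivity
  -- representatives
  have hA : ∀ L : ι → FI K, Reps K L → (∑ c, ∫ z in Fd K, AK K κ (L c) z ≤ B) ∧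
      ∑ c, ∫ z in Fd K, AK K κ (L c) (-z) ≤ B := by
    intro L hL
    obtain ⟨h1, h2⟩ := hC₀ K hn ι L hL
    have h3 : C₀ * cw K * |(discr K : ℝ)| ^ ((1 + κ) / 2) ≤ B := by
      rw [hB]
      gcongr
      exact le_abs_self C₀
    exact ⟨h1.trans h3, h2.trans h3⟩
  have hAc : ∀ L : ι → FI K, Reps K L → ∀ c, Continuous (fun z => AK K κ (L c) z) := fun L hL c =>
    ((hFP K (L c) (hL.1 c)).2.2.2.2.2 κ hκ).1
  have hAS : ∀ L : ι → FI K, Reps K L → (∑ c, ∫ z in Fd K, AS K κ (L c) z ≤ 2 * B) ∧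
      ∑ c, ∫ z in Fd K, AS K κ (L c) (-z) ≤ 2 * B := by
    intro L hL
    have hd := (hRR K ι L hL).2.1
    obtain ⟨h1, h2⟩ := hA L hL
    obtain ⟨h3, h4⟩ := hA _ hd
    constructor
    · have e : ∀ c, ∫ z in Fd K, AS K κ (L c) z = (∫ z in Fd K, AK K κ (L c) z) +
          ∫ z in Fd K, AK K κ (du K (L c)) (-z) := fun c =>
        integral_add (intOnFdR K _ (hAc L hL c)) (intOnFdR K _ ((hAc _ hd c).comp continuous_neg))
      simp only [e, Finset.sum_add_distrib]
      linarith
    · have e : ∀ c, ∫ z in Fd K, AS K κ (L c) (-z) = (∫ z in Fd K, AK K κ (L c) (-z)) +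
          ∫ z in Fd K, AK K κ (du K (L c)) z := by
        intro c
        have : ∀ z : logSpace K, AS K κ (L c) (-z) = AK K κ (L c) (-z) +
            AK K κ (du K (L c)) z := by
          intro z
          unfold AS
          rw [neg_neg]
        simp only [this]
        exact integral_add (intOnFdR K _ ((hAc L hL c).comp continuous_neg))
          (intOnFdR K _ (hAc _ hd c))
      simp only [e, Finset.sum_add_distrib]
      linarith
  have hASc : ∀ L : ι → FI K, Reps K L → ∀ c, Continuous (fun z => AS K κ (L c) z) := fun L hL c =>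
    cont_AS hFP hRR hL hκ c
  have hdv : ∀ e ∈ dvs K k, e ≠ ⊥ := fun e he h => hk (by
    have := (hDF K k hk e).1 he
    rw [h] at this
    exact le_bot_iff.1 this)
  have hEt : ∀ L : ι → FI K, Reps K L →
      (∑ c, ∫ z in Fd K, Et K κ (l * g) k (L c) z ≤ (2 + (dvs K k).card) * (2 * B)) ∧
      ∑ c, ∫ z in Fd K, Et K κ (l * g) k (L c) (-z) ≤ (2 + (dvs K k).card) * (2 * B) := by
    intro L hL
    have r2 := reps_mul hRR hL (pow_ne_zero 2 hk : k ^ 2 ≠ ⊥)
    have r3 : ∀ e ∈ dvs K k, Reps K (fun c => ((l * g * e : Ideal (𝓞 K)) : FI K) * L c) :=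
      fun e he => reps_mul hRR hL (mul_ne_zero hlg (hdv e he))
    constructor
    · have e1 : ∀ c, ∫ z in Fd K, Et K κ (l * g) k (L c) z = ((∫ z in Fd K, AS K κ (L c) z) +
          ∫ z in Fd K, AS K κ (((k ^ 2 : Ideal (𝓞 K)) : FI K) * L c) z) +
          ∑ e ∈ dvs K k, ∫ z in Fd K, AS K κ (((l * g * e : Ideal (𝓞 K)) : FI K) * L c) z := by
        intro c
        have i1 := intOnFdR K _ (hASc L hL c)
        have i2 := intOnFdR K _ (hASc _ r2 c)
        have i3 : ∀ e ∈ dvs K k, IntegrableOn (fun z =>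
            AS K κ (((l * g * e : Ideal (𝓞 K)) : FI K) * L c) z) (Fd K) := fun e he =>
          intOnFdR K _ (hASc _ (r3 e he) c)
        have i4 := integrable_finsetSum (dvs K k) i3
        have a1 := integral_add (i1.add i2) i4
        have a2 := integral_add i1 i2
        have a3 := integral_finsetSum (dvs K k) i3
        calc ∫ z in Fd K, Et K κ (l * g) k (L c) z = _ := a1
          _ = _ := by rw [a3]; exact congrArg (· + _) a2
      have e2 : ∑ c, ∑ e ∈ dvs K k, ∫ z in Fd K,
          AS K κ (((l * g * e : Ideal (𝓞 K)) : FI K) * L c) z ≤ (dvs K k).card * (2 * B) := by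
        rw [Finset.sum_comm]
        refine (Finset.sum_le_card_nsmul _ _ (2 * B) fun e he => (hAS _ (r3 e he)).1).trans ?_
        rw [nsmul_eq_mul]
      simp only [e1, Finset.sum_add_distrib]
      have := (hAS L hL).1
      have := (hAS _ r2).1
      linarith
    · have e1 : ∀ c, ∫ z in Fd K, Et K κ (l * g) k (L c) (-z) =
          ((∫ z in Fd K, AS K κ (L c) (-z)) +
          ∫ z in Fd K, AS K κ (((k ^ 2 : Ideal (𝓞 K)) : FI K) * L c) (-z)) +
          ∑ e ∈ dvs K k, ∫ z in Fd K, AS K κ (((l * g * e : Ideal (𝓞 K)) : FI K) * L c) (-z) := by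
        intro c
        have i1 := intOnFdR K _ ((hASc L hL c).comp continuous_neg)
        have i2 := intOnFdR K _ ((hASc _ r2 c).comp continuous_neg)
        have i3 : ∀ e ∈ dvs K k, IntegrableOn (fun z =>
            AS K κ (((l * g * e : Ideal (𝓞 K)) : FI K) * L c) (-z)) (Fd K) := fun e he =>
          intOnFdR K _ ((hASc _ (r3 e he) c).comp continuous_neg)
        have i4 := integrable_finsetSum (dvs K k) i3
        have a1 := integral_add (i1.add i2) i4
        have a2 := integral_add i1 i2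
        have a3 := integral_finsetSum (dvs K k) i3
        calc ∫ z in Fd K, Et K κ (l * g) k (L c) (-z) = _ := a1
          _ = _ := by rw [a3]; exact congrArg (· + _) a2
      have e2 : ∑ c, ∑ e ∈ dvs K k, ∫ z in Fd K,
          AS K κ (((l * g * e : Ideal (𝓞 K)) : FI K) * L c) (-z) ≤ (dvs K k).card * (2 * B) := by
        rw [Finset.sum_comm]
        refine (Finset.sum_le_card_nsmul _ _ (2 * B) fun e he => (hAS _ (r3 e he)).2).trans ?_
        rw [nsmul_eq_mul]
      simp only [e1, Finset.sum_add_distrib]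
      have := (hAS L hL).2
      have := (hAS _ r2).2
      linarith
  -- the dual representatives
  have hdual : Reps K (fun c => du K ((fk l g k : FI K) * M c)) :=
    (hRR K ι _ (reps_mul hRR hM hfk)).2.1
  have c1 : ∀ c, Continuous (fun z => Et K κ (l * g) k (M c) z) := fun c =>
    cont_Et hFP hRR hDF hM hκ hlg hk c
  have c2 : ∀ c, Continuous (fun z => Et K κ (l * g) k (du K ((fk l g k : FI K) * M c)) (-z)) :=
    fun c => (cont_Et hFP hRR hDF hdual hκ hlg hk c).comp continuous_neg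
  refine ⟨fun c => intOnFdR K _ ((c1 c).add (c2 c)), ?_⟩
  have e1 : ∀ c, ∫ z in Fd K, (Et K κ (l * g) k (M c) z +
      Et K κ (l * g) k (du K ((fk l g k : FI K) * M c)) (-z)) =
      (∫ z in Fd K, Et K κ (l * g) k (M c) z) +
        ∫ z in Fd K, Et K κ (l * g) k (du K ((fk l g k : FI K) * M c)) (-z) := fun c =>
    integral_add (intOnFdR K _ (c1 c)) (intOnFdR K _ (c2 c))
  simp only [e1, Finset.sum_add_distrib]
  have h1 := (hEt M hM).1
  have h2 := (hEt _ hdual).2
  have hcard : (1 : ℝ) ≤ (dvs K k).card := by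
    have : ⊤ ∈ dvs K k := (hDF K k hk ⊤).2 le_top
    exact_mod_cast Finset.card_pos.2 ⟨⊤, this⟩
  have h3 : (2 + ((dvs K k).card : ℝ)) * (2 * B) + (2 + (dvs K k).card) * (2 * B) ≤
      12 * B * (dvs K k).card := by nlinarith
  have h4 : 12 * |C₀| * cw K * |(discr K : ℝ)| ^ ((1 + κ) / 2) * (dvs K k).card =
      12 * B * (dvs K k).card := by
    rw [hB]
    ring
  rw [h4]
  linarith

end Pool.Agent.H69.TC
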